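import Pool.Agent.H78.Rk.RF

set_option autoImplicit false

namespace Pool.Agent.Results.MP_821812_ag.RankTwo

/-- Let `k` be a field of characteristic zero and `D` a locally nilpotent derivation of
`B = k[x,y,z]`. If `D v` is a constant (for instance zero) for some variable `v = u 0` of `B`,
that is, for some coordinate system `u 0, u 1, u 2` of `B`, then for every `n` the image ideal
`D^n (ker D^(n+1))` of `ker D` is principal. This covers all `D` of rank at most two. -/
theorem result :
    ∀ (k : Type) [Field k] [CharZero k]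
      (D : Derivation k (MvPolynomial (Fin 3) k) (MvPolynomial (Fin 3) k)),
      (∀ f : MvPolynomial (Fin 3) k, ∃ m : ℕ, (⇑D)^[m] f = 0) →
      ∀ u : Fin 3 → MvPolynomial (Fin 3) k,
      Function.Bijective
        (MvPolynomial.aeval u : MvPolynomial (Fin 3) k →ₐ[k] MvPolynomial (Fin 3) k) →
      (∃ c : k, D (u 0) = MvPolynomial.C c) →
      ∀ n : ℕ, ∃ a : MvPolynomial (Fin 3) k, D a = 0 ∧
        ∀ g : MvPolynomial (Fin 3) k,
          (∃ f : MvPolynomial (Fin 3) k, (⇑D)^[n + 1] f = 0 ∧ (⇑D)^[n] f = g) ↔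
          (∃ c : MvPolynomial (Fin 3) k, D c = 0 ∧ g = a * c) := by
  intro k _ _ D hD u hu h0 n
  obtain ⟨c, hc⟩ := h0
  rcases eq_or_ne c 0 with rfl | hc0
  · rw [MvPolynomial.C_0] at hc
    exact Pool.Agent.H78.Rk.principal_rank_two D hD u hu hc n
  · exact Pool.Agent.H78.Tri.principal_slice D (u 0) c hc0 hc n

end Pool.Agent.Results.MP_821812_ag.RankTwo
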